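import Pool.Agent.Run7.h98.WM.A11

/-!
# A zero-one law for the weight-monodromy conjecture

Let `X` be a smooth projective variety over a local field `K`, whose residue field has `q` elements,
with semistable reduction (or, more generally, such that the inertia group `I` acts unipotently on the
cohomology), and let `V = H^i(X)`, of dimension `b`, with geometric Frobenius `Φ` and logarithm of
monodromy `N`. It is known that the eigenvalues of `Φ` are `q`-Weil numbers (Rapoport-Zink weight
spectral sequence and Weil II), that `N Φ = q Φ N`, and that Poincare duality and hard Lefschetz give a
perfect equivariant pairing `V ⊗ V → Ω(-i)`; this is all that is used here (`IsCohomology`).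

By the Künneth formula the representation `V^{⊗ n}` is a direct factor of `H^{ni}(X^n)`. Its inertia
invariants `(V^{⊗ n})^I` are the kernel of `N ⊗ 1 ⊗ … ⊗ 1 + … + 1 ⊗ … ⊗ 1 ⊗ N`; their dimension is the
number of poles of the local factor `det(1 - Φ q^{-s} | (V^{⊗ n})^I)^{-1}` (up to periods), and the
part of weight greater than `ni` gives the poles with `Re s > ni/2`.

**Theorem.** There is an `n₀`, which depends only on `b`, such that

* if `V` is mw pure of weight `i`, then for all `n` the part of weight greater than `ni` of
  `(V^{⊗ n})^I` is zero;
* if `V` is not mw pure of weight `i`, then for all `n ≥ n₀` the part of weight greater than `ni` of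
  `(V^{⊗ n})^I` has at least the dimension `δ dim (V^{⊗ n})^I`, where `δ = exp(-10^6 b^4)/32 > 0`
  depends only on `b`.

So the proportion of the poles of the local factors which violate the weight bound of the conjecture
is either `0` for all powers of `X`, or at least `δ` for all large powers, and `H^i(X)` is mw pure as
soon as, for one `n ≥ n₀(b)`, less than the proportion `δ` of the poles of the local factor of
`H^i(X)^{⊗ n} ⊂ H^{ni}(X^n)` lie to the right of the line `Re s = ni/2`. Here `b` only has to be the
Betti number: no model of `X` or of `X^n` occurs.

Idea of the proof. `V` has a basis of Jordan strings of `N` which are homogeneous for the weights;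
string `j` has length `a j` and its weights are centred at `i + c j`, and `V` is mw pure if and only if
all `c j` are zero. The dual basis with respect to the pairing has strings of the same lengths with
centres `i - c j`. In each of the `n` factors of `V^{⊗ n}` we take one of the two bases. A tensor
product of strings `s = (s_1, …, s_n)` with centre `ni + C`, `C ≥ 1`, contains at least
`G_s(0) - G_s(C) + …` invariants of weight greater than `ni`, where `G_s` is the character of the
product of the representations of `sl_2` of dimensions `a (s_t)`. The average over the `2^n` choices of
bases replaces `C` by a sum of random signs `± c (s_t)`, which by the second and fourth moment (Paley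
and Zygmund) is large with probability bounded from below, on the scale on which the unimodal
character `G_s` has decreased from its value at `0` by a factor: its variance is at most
`b² n`, by the second moment of `G_s`. The tuples `s` which contain few strings with `c ≠ 0` are rare
in the sense of their total contribution to the invariants.
-/

set_option autoImplicit false

open Module Pool.Agent.Y143 Run7.h98.WM

namespace Pool.Agent.Results.MP_855f4c_ag.ZeroOneLaw

/-- **Zero-one law for the weight-monodromy conjecture.** For every `b` there is an `n₀` such that for
every representation `V` of dimension `b` with the known properties of the cohomology `H^i(X)` of a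
smooth projective variety over a local field with unipotent action of inertia: if `V` is mw pure of
weight `i`, then the inertia invariants of all `V^{⊗ n}` have no part of weight greater than `n i`; if
`V` is not mw pure of weight `i`, then for all `n ≥ n₀` at least the proportion `exp(-10^6 b^4)/32` of
the inertia invariants of `V^{⊗ n}` has weight greater than `n i`. -/
theorem result (b : ℕ) : ∃ n₀ : ℕ, ∀ (Ω V : Type) [Field Ω] [CharZero Ω] [IsAlgClosed Ω]
    [AddCommGroup V] [Module Ω V] [FiniteDimensional Ω V] (q : ℕ) (i : ℤ) (Φ N : Module.End Ω V)
    (B : V →ₗ[Ω] V →ₗ[Ω] Ω), 1 < q → finrank Ω V = b → IsCohomology q i Φ N B →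
    (IsMWPure q i Φ N → ∀ n : ℕ,
      invariantsAbove q (n * i) (powerFrobenius n Φ) (powerMonodromy n N) = ⊥) ∧
    (¬ IsMWPure q i Φ N → ∀ n : ℕ, n₀ ≤ n →
      Real.exp (-(10 ^ 6 * (b : ℝ) ^ 4)) / 32 *
        finrank Ω (LinearMap.ker (powerMonodromy n N)) ≤
      finrank Ω (invariantsAbove q (n * i) (powerFrobenius n Φ) (powerMonodromy n N))) :=
  law b

end Pool.Agent.Results.MP_855f4c_ag.ZeroOneLaw
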